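import Pool.Agent.Helper98.M1.Stat0
import Pool.Agent.Helper42.M1.Path

set_option autoImplicit false

/-!
# Uniqueness of the stationary law: two states of equal mass
-/

namespace Pool.Agent.Helper98.M1

open MeasureTheory ProbabilityTheory Set Pool.Agent.Helper60.TJ Pool.Agent.Helper60.TJ.A1x
open Pool.H66.EAM Pool.Agent.Helper66.LK
open Pool.Agent.Helper61.MM (shB shT PB WT Wgt coin)

/-! ### the T-join of a spin configuration -/

/-- signs of the spins -/
noncomputable def sb (σ : V → ℝ) : Vx → Bool := fun v => decide (σ (Ve v) = -1)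

/-- the T-join of a spin configuration -/
noncomputable def Uof (J : E → ℝ) (σ : V → ℝ) : Ed → Bool :=
  bx (ng (tr J)) (Pool.Agent.Helper60.TJ.cut (sb σ))

theorem sn_sb {σ : V → ℝ} (h : IsSpin σ) (x : V) : sn (sb σ (vV x)) = σ x := by
  unfold sb
  rw [Ve_vV]
  rcases h x with h1 | h1
  · rw [h1]
    norm_num [sn]
  · rw [h1]
    simp [sn]

theorem bdU_Uof {σ : V → ℝ} (h : IsSpin σ) (J : E → ℝ) : bdU J (Uof J σ) = bond σ := by
  funext e
  have h1 : bx (ng (tr J)) (Uof J σ) (cE e) = Pool.Agent.Helper60.TJ.cut (sb σ) (cE e) := by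
    unfold Uof bx
    generalize ng (tr J) (cE e) = a
    generalize Pool.Agent.Helper60.TJ.cut (sb σ) (cE e) = b
    cases a <;> cases b <;> rfl
  unfold bdU
  rw [h1]
  unfold bond
  rw [← sn_sb h e.1, ← sn_sb h (e.1 + _), sn_mul, ← pa_cE, ← pb_cE]
  rfl

theorem par_Uof (J : E → ℝ) (σ : V → ℝ) (v : Vx) : par (Uof J σ) v = (wJ J).2 v := by
  unfold Uof
  rw [par_bx, par_cut, Bool.xor_false]
  rfl

theorem bdU_inj {J : E → ℝ} {U U' : Ed → Bool} (h : bdU J U = bdU J U') : U = U' := by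
  funext f
  have h1 := congrFun h (cE.symm f)
  unfold bdU bx at h1
  rw [Equiv.apply_symm_apply] at h1
  revert h1
  generalize ng (tr J) f = a
  cases a <;> cases U f <;> cases U' f <;> norm_num [sg]

theorem bdU_eq {J : E → ℝ} {U U' : Ed → Bool} {e : E} : bdU J U e = bdU J U' e ↔
    U (cE e) = U' (cE e) := by
  unfold bdU bx
  generalize ng (tr J) (cE e) = a
  cases a <;> cases U (cE e) <;> cases U' (cE e) <;> norm_num [sg]

theorem bdU_ne {J : E → ℝ} {U U' : Ed → Bool} {e : E} (h : U (cE e) ≠ U' (cE e)) :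
    bdU J U' e = - bdU J U e := by
  revert h
  unfold bdU bx
  generalize ng (tr J) (cE e) = a
  cases a <;> cases U (cE e) <;> cases U' (cE e) <;> norm_num [sg]

theorem bdU_pm (J : E → ℝ) (U : Ed → Bool) (e : E) : bdU J U e = 1 ∨ bdU J U e = -1 := by
  unfold bdU
  cases bx (ng (tr J)) U (cE e) <;> simp [sg]

theorem bdU_sq (J : E → ℝ) (U : Ed → Bool) (e : E) : bdU J U e * bdU J U e = 1 := by
  rcases bdU_pm J U e with h | h <;> rw [h] <;> norm_num

/-! ### integrals over two atoms -/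

theorem int_two {ν : Measure (Ed → Bool)} [IsProbabilityMeasure ν] {a b : Ed → Bool}
    (hab : a ≠ b) (ha : ν {a} = 2⁻¹) (hb : ν {b} = 2⁻¹) {f : (Ed → Bool) → ℝ}
    (hf : Measurable f) (hfb : ∀ U, |f U| ≤ 1) : ∫ U, f U ∂ν = (f a + f b) / 2 := by
  classical
  have hm : MeasurableSet ((({a, b} : Finset (Ed → Bool)) : Set (Ed → Bool))) :=
    Finset.measurableSet _
  have h1 : ν ((({a, b} : Finset (Ed → Bool)) : Set (Ed → Bool))) = 1 := by
    have : ((({a, b} : Finset (Ed → Bool)) : Set (Ed → Bool))) = {a} ∪ {b} := by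
      ext x; simp [or_comm]
    rw [this, measure_union (by simpa using hab) (measurableSet_singleton b), ha, hb,
      ENNReal.inv_two_add_inv_two]
  have h2 : ∀ᵐ U ∂ν, U ∈ ((({a, b} : Finset (Ed → Bool)) : Set (Ed → Bool))) := by
    rw [ae_iff]
    exact (prob_compl_eq_zero_iff hm).2 h1
  have hint : Integrable f ν := Integrable.of_bound hf.aestronglyMeasurable 1
    (Filter.Eventually.of_forall fun U => by rw [Real.norm_eq_abs]; exact hfb U)
  rw [← Measure.restrict_eq_self_of_ae_mem h2, setIntegral_finset _ hint.integrableOn,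
    Finset.sum_pair hab]
  unfold Measure.real
  rw [ha, hb]
  simp
  ring

/-! ### the interface -/

/-- two states of equal mass which differ along one path -/
structure TwoS (μ : Measure ℝ) (k : Kernel WT (Ed → Bool)) (al be : WT → Ed → Bool) : Prop where
  kp : KP μ k
  mal : Measurable al
  mbe : Measurable be
  half : ∀ᵐ b ∂(PB (lm μ)), al b ≠ be b ∧ k b {al b} = 2⁻¹ ∧ k b {be b} = 2⁻¹
  one : ∀ᵐ b ∂(PB (lm μ)), Pool.Agent.Helper61.MM.One (b.1, al b, be b)

variable {μ : Measure ℝ} [IsProbabilityMeasure μ] {k : Kernel WT (Ed → Bool)}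
  {al be : WT → Ed → Bool}

theorem TwoS.gs (h : TwoS μ k al be) : ∀ᵐ b ∂(PB (lm μ)), al b ∈ GS b.1 b.2 ∧
    be b ∈ GS b.1 b.2 := by
  filter_upwards [h.half, h.kp.gs] with b hb hg
  have key : ∀ U, k b {U} = 2⁻¹ → U ∈ GS b.1 b.2 := by
    intro U hU
    by_contra hn
    have h1 : k b {U} = 0 := by
      rw [ae_iff] at hg
      refine measure_mono_null ?_ hg
      intro V hV
      rw [Set.mem_singleton_iff] at hV
      rw [hV]
      exact hn
    rw [h1] at hU
    exact absurd hU.symm (by simp)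
  exact ⟨key _ hb.2.1, key _ hb.2.2⟩

/-- the bonds of the two states -/
noncomputable def bA (al : WT → Ed → Bool) (J : E → ℝ) : E → ℝ := bdU J (al (wJ J))

theorem measurable_bA {al : WT → Ed → Bool} (h : Measurable al) : Measurable (bA al) :=
  measurable_bdU.comp (measurable_id.prodMk (h.comp measurable_wJ))

theorem means (hμ : ∀ x : ℝ, μ {x} = 0) (hsym : μ.map (fun x => -x) = μ)
    (h : TwoS μ k al be) {Q : Measure ((E → ℝ) × (V → ℝ))} (hQ : StationaryLaw μ Q) (e : E)
    {g : (E → ℝ) → ℝ} (hg : Measurable g) (hb : ∃ C : ℝ, ∀ J, |g J| ≤ C) :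
    ∫ p, g p.1 * bond p.2 e ∂Q = ∫ p, g p.1 * ((bA al p.1 e + bA be p.1 e) / 2) ∂Q := by
  have := h.kp.mark
  rw [same_means hμ hsym h.kp hQ e hg hb]
  have hm : Measurable fun J : E → ℝ => g J * ((bA al J e + bA be J e) / 2) :=
    hg.mul ((((measurable_pi_apply e).comp (measurable_bA h.mal)).add
      ((measurable_pi_apply e).comp (measurable_bA h.mbe))).div_const 2)
  have h1 : ∫ p, g p.1 * ((bA al p.1 e + bA be p.1 e) / 2) ∂Q =
      ∫ J, g J * ((bA al J e + bA be J e) / 2) ∂(PJ μ) := by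
    have h2 : Q.map Prod.fst = PJ μ := hQ.1
    rw [← h2, integral_map measurable_fst.aemeasurable hm.aestronglyMeasurable]
  rw [h1]
  refine integral_congr_ae ?_
  filter_upwards [ae_wJ hμ hsym h.half] with J hJ
  have h3 : ∫ U, bdU J U e ∂(k (wJ J)) = (bA al J e + bA be J e) / 2 := by
    refine int_two hJ.1 hJ.2.1 hJ.2.2 ?_ fun U => abs_bdU J U e
    exact (measurable_pi_apply e).comp (measurable_bdU.comp (measurable_const.prodMk
      measurable_id))
  rw [h3]

theorem stat_prob {Q : Measure ((E → ℝ) × (V → ℝ))} (hQ : StationaryLaw μ Q) :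
    IsProbabilityMeasure Q := by
  have h2 : Q.map Prod.fst = PJ μ := hQ.1
  constructor
  have h3 : (Q.map Prod.fst) Set.univ = 1 := by rw [h2, measure_univ]
  rwa [Measure.map_apply measurable_fst MeasurableSet.univ, preimage_univ] at h3

theorem stat_spin {Q : Measure ((E → ℝ) × (V → ℝ))} (hQ : StationaryLaw μ Q) :
    ∀ᵐ p ∂Q, IsSpin p.2 := by
  filter_upwards [hQ.2.2] with p hp
  exact hp.1

theorem ae_fst {Q : Measure ((E → ℝ) × (V → ℝ))} (hQ : StationaryLaw μ Q) {P : (E → ℝ) → Prop}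
    (h : ∀ᵐ J ∂(PJ μ), P J) : ∀ᵐ p ∂Q, P p.1 := by
  have h2 : Q.map Prod.fst = PJ μ := hQ.1
  rw [← h2] at h
  exact ae_of_ae_map measurable_fst.aemeasurable h

theorem abs_bA (al : WT → Ed → Bool) (J : E → ℝ) (e : E) : |bA al J e| ≤ 1 := abs_bdU _ _ _

theorem measurableSet_eqB (h : TwoS μ k al be) (e : E) :
    MeasurableSet {J : E → ℝ | al (wJ J) (cE e) = be (wJ J) (cE e)} :=
  measurableSet_eq_fun ((measurable_pi_apply _).comp (h.mal.comp measurable_wJ))
    ((measurable_pi_apply _).comp (h.mbe.comp measurable_wJ))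

/-- off the wall the bonds are those of the two states -/
theorem off_wall (hμ : ∀ x : ℝ, μ {x} = 0) (hsym : μ.map (fun x => -x) = μ)
    (h : TwoS μ k al be) {Q : Measure ((E → ℝ) × (V → ℝ))} (hQ : StationaryLaw μ Q) :
    ∀ᵐ p ∂Q, ∀ e, al (wJ p.1) (cE e) = be (wJ p.1) (cE e) → bond p.2 e = bA al p.1 e := by
  have := stat_prob hQ
  rw [ae_all_iff]
  intro e
  set D : Set (E → ℝ) := {J | al (wJ J) (cE e) = be (wJ J) (cE e)} with hD
  have hDm : MeasurableSet D := measurableSet_eqB h e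
  have hbm : Measurable fun J : E → ℝ => bA al J e :=
    (measurable_pi_apply e).comp (measurable_bA h.mal)
  set g : (E → ℝ) → ℝ := D.indicator fun J => bA al J e with hg
  have hgm : Measurable g := hbm.indicator hDm
  have hgb : ∀ J, |g J| ≤ 1 := by
    intro J
    by_cases hJ : J ∈ D
    · rw [hg, indicator_of_mem hJ]
      exact abs_bA _ _ _
    · rw [hg, indicator_of_notMem hJ]
      simp
  have h1 := means hμ hsym h hQ e hgm ⟨1, hgb⟩
  have h2 : ∀ p : (E → ℝ) × (V → ℝ), g p.1 * ((bA al p.1 e + bA be p.1 e) / 2) =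
      D.indicator (fun _ => (1 : ℝ)) p.1 := by
    intro p
    by_cases hJ : p.1 ∈ D
    · rw [hg, indicator_of_mem hJ, indicator_of_mem hJ]
      have h3 : bA be p.1 e = bA al p.1 e := (bdU_eq.2 hJ).symm
      rw [h3]
      have h4 := bdU_sq p.1 (al (wJ p.1)) e
      have h5 : bA al p.1 e * bA al p.1 e = 1 := h4
      linarith
    · rw [hg, indicator_of_notMem hJ, indicator_of_notMem hJ, zero_mul]
  simp only [h2] at h1
  have hbo : Measurable fun p : (E → ℝ) × (V → ℝ) => bond p.2 e := measurable_bond measurable_snd e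
  have hi1 : Integrable (fun p : (E → ℝ) × (V → ℝ) => g p.1 * bond p.2 e) Q := by
    refine Integrable.of_bound ((hgm.comp measurable_fst).mul hbo).aestronglyMeasurable 1 ?_
    filter_upwards [stat_spin hQ] with p hp
    show ‖g p.1 * bond p.2 e‖ ≤ 1
    rw [Real.norm_eq_abs, abs_mul, abs_bond hp, mul_one]
    exact hgb _
  have hi2 : Integrable (fun p : (E → ℝ) × (V → ℝ) => D.indicator (fun _ => (1 : ℝ)) p.1) Q := by
    refine Integrable.of_bound
      (((measurable_const.indicator hDm).comp measurable_fst).aestronglyMeasurable) 1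
      (Filter.Eventually.of_forall fun p => ?_)
    show ‖D.indicator (fun _ => (1 : ℝ)) p.1‖ ≤ 1
    by_cases hJ : p.1 ∈ D
    · rw [indicator_of_mem hJ]; simp
    · rw [indicator_of_notMem hJ]; simp
  have h3 : ∫ p, (D.indicator (fun _ => (1 : ℝ)) p.1 - g p.1 * bond p.2 e) ∂Q = 0 := by
    rw [integral_sub hi2 hi1, h1, sub_self]
  have h4 : 0 ≤ᵐ[Q] fun p : (E → ℝ) × (V → ℝ) =>
      D.indicator (fun _ => (1 : ℝ)) p.1 - g p.1 * bond p.2 e := by
    filter_upwards [stat_spin hQ] with p hp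
    show 0 ≤ D.indicator (fun _ => (1 : ℝ)) p.1 - g p.1 * bond p.2 e
    by_cases hJ : p.1 ∈ D
    · rw [hg, indicator_of_mem hJ, indicator_of_mem hJ]
      have h5 : |bA al p.1 e * bond p.2 e| ≤ 1 := by
        rw [abs_mul, abs_bond hp, mul_one]
        exact abs_bA _ _ _
      linarith [le_abs_self (bA al p.1 e * bond p.2 e)]
    · rw [hg, indicator_of_notMem hJ, indicator_of_notMem hJ]
      simp
  have h5 := (integral_eq_zero_iff_of_nonneg_ae h4 (hi2.sub hi1)).1 h3
  filter_upwards [h5, stat_spin hQ] with p hp hsp hJ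
  have hJ' : p.1 ∈ D := hJ
  have h6 : D.indicator (fun _ => (1 : ℝ)) p.1 - g p.1 * bond p.2 e = 0 := hp
  rw [hg, indicator_of_mem hJ', indicator_of_mem hJ'] at h6
  have h7 : bA al p.1 e * bA al p.1 e = 1 := bdU_sq p.1 (al (wJ p.1)) e
  have h8 : bA al p.1 e * bond p.2 e = 1 := by linarith
  calc bond p.2 e = (bA al p.1 e * bA al p.1 e) * bond p.2 e := by rw [h7, one_mul]
    _ = bA al p.1 e * (bA al p.1 e * bond p.2 e) := by ring
    _ = bA al p.1 e := by rw [h8, mul_one]

/-- every ground state is one of the two states -/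
theorem two (hμ : ∀ x : ℝ, μ {x} = 0) (hsym : μ.map (fun x => -x) = μ)
    (h : TwoS μ k al be) {Q : Measure ((E → ℝ) × (V → ℝ))} (hQ : StationaryLaw μ Q) :
    ∀ᵐ p ∂Q, bond p.2 = bA al p.1 ∨ bond p.2 = bA be p.1 := by
  filter_upwards [off_wall hμ hsym h hQ, stat_spin hQ, ae_fst hQ (ae_wJ hμ hsym h.one),
    ae_fst hQ (ae_wJ hμ hsym h.gs)] with p h1 hsp hone hgs
  have h2 : ∀ v, par (Uof p.1 p.2) v = par (al (wJ p.1)) v := by
    intro v
    rw [par_Uof, hgs.1.1 v]
  have h3 : ∀ f, bx (al (wJ p.1)) (be (wJ p.1)) f = false → Uof p.1 p.2 f = al (wJ p.1) f := by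
    intro f hf
    have h4 : al (wJ p.1) (cE (cE.symm f)) = be (wJ p.1) (cE (cE.symm f)) := by
      rw [Equiv.apply_symm_apply]
      revert hf
      unfold bx
      cases al (wJ p.1) f <;> cases be (wJ p.1) f <;> simp
    have h5 := h1 _ h4
    rw [← bdU_Uof hsp p.1] at h5
    have h6 := bdU_eq.1 h5
    rwa [Equiv.apply_symm_apply] at h6
  rcases Pool.Agent.Helper42.M1.one_two hone h2 h3 with h4 | h4
  · left
    rw [← bdU_Uof hsp p.1, h4]
    rfl
  · right
    rw [← bdU_Uof hsp p.1, h4]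
    rfl

/-- the event that the bonds are those of the first state -/
def Aal (al : WT → Ed → Bool) : Set ((E → ℝ) × (V → ℝ)) := {p | bond p.2 = bA al p.1}

theorem measurableSet_Aal {al : WT → Ed → Bool} (hal : Measurable al) :
    MeasurableSet (Aal al) := by
  have h : Aal al = ⋂ e : E, {p | bond p.2 e = bA al p.1 e} := by
    ext p
    rw [Set.mem_iInter]
    exact funext_iff
  rw [h]
  refine MeasurableSet.iInter fun e => measurableSet_eq_fun (measurable_bond measurable_snd e) ?_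
  exact (measurable_pi_apply e).comp ((measurable_bA hal).comp measurable_fst)

/-- on a set where a given edge is in the wall both states have the same mass -/
theorem mass_eq (hμ : ∀ x : ℝ, μ {x} = 0) (hsym : μ.map (fun x => -x) = μ)
    (h : TwoS μ k al be) {Q : Measure ((E → ℝ) × (V → ℝ))} (hQ : StationaryLaw μ Q) (e : E)
    {H : Set (E → ℝ)} (hH : MeasurableSet H)
    (hHe : ∀ J ∈ H, al (wJ J) (cE e) ≠ be (wJ J) (cE e)) :
    Q (Prod.fst ⁻¹' H ∩ Aal al) = Q (Prod.fst ⁻¹' H ∩ (Aal al)ᶜ) := by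
  have := stat_prob hQ
  have hAm := measurableSet_Aal h.mal
  have hHm : MeasurableSet (Prod.fst ⁻¹' H : Set ((E → ℝ) × (V → ℝ))) := measurable_fst hH
  have hbm : Measurable fun J : E → ℝ => bA al J e :=
    (measurable_pi_apply e).comp (measurable_bA h.mal)
  set g : (E → ℝ) → ℝ := H.indicator fun J => bA al J e with hg
  have hgm : Measurable g := hbm.indicator hH
  have hgb : ∀ J, |g J| ≤ 1 := by
    intro J
    by_cases hJ : J ∈ H
    · rw [hg, indicator_of_mem hJ]
      exact abs_bA _ _ _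
    · rw [hg, indicator_of_notMem hJ]
      simp
  have h1 := means hμ hsym h hQ e hgm ⟨1, hgb⟩
  have h2 : ∀ p : (E → ℝ) × (V → ℝ), g p.1 * ((bA al p.1 e + bA be p.1 e) / 2) = 0 := by
    intro p
    by_cases hJ : p.1 ∈ H
    · have h3 : bA be p.1 e = - bA al p.1 e := bdU_ne (hHe _ hJ)
      rw [h3]
      ring
    · rw [hg, indicator_of_notMem hJ, zero_mul]
  simp only [h2, integral_zero] at h1
  have h3 : ∫ p, g p.1 * bond p.2 e ∂Q =
      ∫ p, ((Prod.fst ⁻¹' H ∩ Aal al).indicator (fun _ => (1 : ℝ)) p -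
        (Prod.fst ⁻¹' H ∩ (Aal al)ᶜ).indicator (fun _ => (1 : ℝ)) p) ∂Q := by
    refine integral_congr_ae ?_
    filter_upwards [two hμ hsym h hQ] with p hp
    show g p.1 * bond p.2 e = (Prod.fst ⁻¹' H ∩ Aal al).indicator (fun _ => (1 : ℝ)) p -
        (Prod.fst ⁻¹' H ∩ (Aal al)ᶜ).indicator (fun _ => (1 : ℝ)) p
    have h7 : bA al p.1 e * bA al p.1 e = 1 := bdU_sq p.1 (al (wJ p.1)) e
    by_cases hJ : p.1 ∈ H
    · have hJ' : p ∈ (Prod.fst ⁻¹' H : Set ((E → ℝ) × (V → ℝ))) := hJ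
      rw [hg, indicator_of_mem hJ]
      by_cases hA : p ∈ Aal al
      · have hm1 : p ∈ Prod.fst ⁻¹' H ∩ Aal al := ⟨hJ', hA⟩
        rw [indicator_of_mem hm1, indicator_of_notMem (fun hc => hc.2 hA)]
        have h8 : bond p.2 = bA al p.1 := hA
        rw [h8, h7, sub_zero]
      · have hm1 : p ∈ Prod.fst ⁻¹' H ∩ (Aal al)ᶜ := ⟨hJ', hA⟩
        rw [indicator_of_notMem (fun hc => hA hc.2), indicator_of_mem hm1]
        have h8 : bond p.2 = bA be p.1 := hp.resolve_left hA
        have h9 : bA be p.1 e = - bA al p.1 e := bdU_ne (hHe _ hJ)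
        rw [h8, h9]
        linarith
    · have hJ' : p ∉ (Prod.fst ⁻¹' H : Set ((E → ℝ) × (V → ℝ))) := hJ
      rw [hg, indicator_of_notMem hJ, indicator_of_notMem (fun hc => hJ' hc.1),
        indicator_of_notMem (fun hc => hJ' hc.1)]
      ring
  rw [h3, integral_sub ((integrable_const (1 : ℝ)).indicator (hHm.inter hAm))
    ((integrable_const (1 : ℝ)).indicator (hHm.inter hAm.compl)),
    integral_indicator_const _ (hHm.inter hAm), integral_indicator_const _ (hHm.inter hAm.compl)]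
    at h1
  have h4 : Q.real (Prod.fst ⁻¹' H ∩ Aal al) = Q.real (Prod.fst ⁻¹' H ∩ (Aal al)ᶜ) := by
    simp only [smul_eq_mul, mul_one] at h1
    linarith
  exact (ENNReal.toReal_eq_toReal_iff' (measure_ne_top _ _) (measure_ne_top _ _)).1 h4

/-- both states have the same mass -/
theorem mass (hμ : ∀ x : ℝ, μ {x} = 0) (hsym : μ.map (fun x => -x) = μ)
    (h : TwoS μ k al be) {Q : Measure ((E → ℝ) × (V → ℝ))} (hQ : StationaryLaw μ Q) :
    (Q.restrict (Aal al)).map Prod.fst = (Q.restrict (Aal al)ᶜ).map Prod.fst := by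
  have := stat_prob hQ
  have hAm := measurableSet_Aal h.mal
  have hfst : Q.map Prod.fst = PJ μ := hQ.1
  set W : E → Set (E → ℝ) := fun e => {J | al (wJ J) (cE e) = be (wJ J) (cE e)}ᶜ with hW
  have hWm : ∀ e, MeasurableSet (W e) := fun e => (measurableSet_eqB h e).compl
  have hU : ∀ᵐ J ∂(PJ μ), J ∈ ⋃ e, W e := by
    filter_upwards [ae_wJ hμ hsym h.half] with J hJ
    rw [Set.mem_iUnion]
    by_contra hc
    push Not at hc
    refine hJ.1 (funext fun f => ?_)
    have h1 : al (wJ J) (cE (cE.symm f)) = be (wJ J) (cE (cE.symm f)) := by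
      have h2 := hc (cE.symm f)
      rw [hW] at h2
      exact not_not.1 h2
    rwa [Equiv.apply_symm_apply] at h1
  have hle : ∀ A : Set ((E → ℝ) × (V → ℝ)), ∀ᵐ J ∂((Q.restrict A).map Prod.fst),
      J ∈ ⋃ e, W e := by
    intro A
    have h1 : (Q.restrict A).map Prod.fst ≤ PJ μ := by
      rw [← hfst]
      exact Measure.map_mono Measure.restrict_le_self measurable_fst
    exact hU.filter_mono (ae_mono h1)
  rw [← Measure.restrict_eq_self_of_ae_mem (hle (Aal al)),
    ← Measure.restrict_eq_self_of_ae_mem (hle (Aal al)ᶜ), Measure.restrict_iUnion_congr]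
  intro e
  ext H hH
  rw [Measure.restrict_apply hH, Measure.restrict_apply hH,
    Measure.map_apply measurable_fst (hH.inter (hWm e)),
    Measure.map_apply measurable_fst (hH.inter (hWm e)),
    Measure.restrict_apply (measurable_fst (hH.inter (hWm e))),
    Measure.restrict_apply (measurable_fst (hH.inter (hWm e)))]
  exact mass_eq hμ hsym h hQ e (hH.inter (hWm e)) fun J hJ => hJ.2

theorem mass_half (hμ : ∀ x : ℝ, μ {x} = 0) (hsym : μ.map (fun x => -x) = μ)
    (h : TwoS μ k al be) {Q : Measure ((E → ℝ) × (V → ℝ))} (hQ : StationaryLaw μ Q)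
    {H : Set (E → ℝ)} (hH : MeasurableSet H) :
    Q (Prod.fst ⁻¹' H ∩ Aal al) = PJ μ H / 2 ∧ Q (Prod.fst ⁻¹' H ∩ (Aal al)ᶜ) = PJ μ H / 2 := by
  have := stat_prob hQ
  have hAm := measurableSet_Aal h.mal
  have hfst : Q.map Prod.fst = PJ μ := hQ.1
  have hHm : MeasurableSet (Prod.fst ⁻¹' H : Set ((E → ℝ) × (V → ℝ))) := measurable_fst hH
  have h1 : Q (Prod.fst ⁻¹' H ∩ Aal al) = Q (Prod.fst ⁻¹' H ∩ (Aal al)ᶜ) := by
    have h2 : ((Q.restrict (Aal al)).map Prod.fst) H =
        ((Q.restrict (Aal al)ᶜ).map Prod.fst) H := by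
      rw [mass hμ hsym h hQ]
    rwa [Measure.map_apply measurable_fst hH, Measure.map_apply measurable_fst hH,
      Measure.restrict_apply hHm, Measure.restrict_apply hHm] at h2
  have h3 : Q (Prod.fst ⁻¹' H ∩ Aal al) + Q (Prod.fst ⁻¹' H ∩ (Aal al)ᶜ) = PJ μ H := by
    rw [← hfst, Measure.map_apply measurable_fst hH]
    exact measure_inter_add_sdiff _ hAm
  rw [← h1, ← two_mul] at h3
  have h4 : Q (Prod.fst ⁻¹' H ∩ Aal al) = PJ μ H / 2 := by
    rw [← h3, ENNReal.mul_div_right_comm, ENNReal.div_self (by norm_num) (by norm_num), one_mul]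
  exact ⟨h4, h1 ▸ h4⟩

/-- **the law of (couplings, bonds)** is the same for all stationary laws -/
theorem law_two (hμ : ∀ x : ℝ, μ {x} = 0) (hsym : μ.map (fun x => -x) = μ)
    (h : TwoS μ k al be) {Q : Measure ((E → ℝ) × (V → ℝ))} (hQ : StationaryLaw μ Q)
    {G : Set ((E → ℝ) × (E → ℝ))} (hG : MeasurableSet G) :
    Q.map (fun p => (p.1, bond p.2)) G =
      PJ μ {J | (J, bA al J) ∈ G} / 2 + PJ μ {J | (J, bA be J) ∈ G} / 2 := by
  have := stat_prob hQ
  have hAm := measurableSet_Aal h.mal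
  have hbm : Measurable fun p : (E → ℝ) × (V → ℝ) => (p.1, bond p.2) :=
    measurable_fst.prodMk (measurable_pi_iff.2 fun e => measurable_bond measurable_snd e)
  have hGa : MeasurableSet {J : E → ℝ | (J, bA al J) ∈ G} :=
    hG.preimage (measurable_id.prodMk (measurable_bA h.mal))
  have hGb : MeasurableSet {J : E → ℝ | (J, bA be J) ∈ G} :=
    hG.preimage (measurable_id.prodMk (measurable_bA h.mbe))
  rw [Measure.map_apply hbm hG, ← measure_inter_add_sdiff _ hAm]
  congr 1
  · rw [← (mass_half hμ hsym h hQ hGa).1]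
    refine congrArg Q (Set.ext fun p => ⟨fun hp => ⟨?_, hp.2⟩, fun hp => ⟨?_, hp.2⟩⟩)
    · have h1 : (p.1, bond p.2) ∈ G := hp.1
      have h2 : bond p.2 = bA al p.1 := hp.2
      rw [h2] at h1
      exact h1
    · have h1 : (p.1, bA al p.1) ∈ G := hp.1
      have h2 : bond p.2 = bA al p.1 := hp.2
      rw [← h2] at h1
      exact h1
  · rw [← (mass_half hμ hsym h hQ hGb).2]
    refine measure_congr ?_
    filter_upwards [two hμ hsym h hQ] with p hp
    refine propext ⟨fun hq => ⟨?_, hq.2⟩, fun hq => ⟨?_, hq.2⟩⟩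
    · have h1 : (p.1, bond p.2) ∈ G := hq.1
      have h2 : bond p.2 = bA be p.1 := hp.resolve_left hq.2
      rw [h2] at h1
      exact h1
    · have h1 : (p.1, bA be p.1) ∈ G := hq.1
      have h2 : bond p.2 = bA be p.1 := hp.resolve_left hq.2
      rw [← h2] at h1
      exact h1

/-- the spins of the first state -/
theorem spin_of_bond {J : E → ℝ} {σ : V → ℝ} (hs : IsSpin σ)
    {U : Ed → Bool} (hU : Ev J U) (hb : bond σ = bdU J U) : σ = spi J U ∨ σ = - spi J U := by
  rw [← bond_spi hU] at hb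
  have hs2 : IsSpin (spi J U) := fun x => sn_pm _
  exact eq_or_neg hs2 hs fun e => congrFun hb e

/-- every ground state is one of the two states, up to the sign -/
theorem two_spin (hμ : ∀ x : ℝ, μ {x} = 0) (hsym : μ.map (fun x => -x) = μ)
    (h : TwoS μ k al be) {Q : Measure ((E → ℝ) × (V → ℝ))} (hQ : StationaryLaw μ Q) :
    ∀ᵐ p ∂Q, (p.2 = spi p.1 (al (wJ p.1)) ∨ p.2 = - spi p.1 (al (wJ p.1))) ∨
      (p.2 = spi p.1 (be (wJ p.1)) ∨ p.2 = - spi p.1 (be (wJ p.1))) := by
  filter_upwards [two hμ hsym h hQ, stat_spin hQ, ae_fst hQ (ae_wJ hμ hsym h.gs)] with p hp hsp hgs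
  rcases hp with h1 | h1
  · left
    exact spin_of_bond hsp (Ev_of_GS hgs.1) h1
  · right
    exact spin_of_bond hsp (Ev_of_GS hgs.2) h1

/-- **uniqueness of the stationary law** -/
theorem uniq (hμ : ∀ x : ℝ, μ {x} = 0) (hsym : μ.map (fun x => -x) = μ)
    (h : TwoS μ k al be) {Q Q' : Measure ((E → ℝ) × (V → ℝ))} (hQ : StationaryLaw μ Q)
    (hQ' : StationaryLaw μ Q') :
    Q.map (fun p => (p.1, bond p.2)) = Q'.map (fun p => (p.1, bond p.2)) := by
  ext G hG
  rw [law_two hμ hsym h hQ hG, law_two hμ hsym h hQ' hG]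

end Pool.Agent.Helper98.M1
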