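import Pool.Agent.Helper66.LK.OneState
import Pool.Agent.Helper66.EAM.Res4
import Pool.Agent.Helper61.MM.DefsB

set_option autoImplicit false

/-!
# The stationary law of a kernel of T-joins
-/

namespace Pool.Agent.Helper98.M1

open MeasureTheory ProbabilityTheory Set Pool.Agent.Helper60.TJ Pool.Agent.Helper60.TJ.A1x
open Pool.H66.EAM Pool.Agent.Helper66.LK
open Pool.Agent.Helper61.MM (shB shT PB WT Wgt coin)

/-- weights and frustrated plaquettes of the couplings -/
noncomputable def wJ (J : E → ℝ) : WT := wf (tr J)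

theorem measurable_wJ : Measurable wJ := measurable_wf.comp measurable_tr

theorem map_wJ {μ : Measure ℝ} [IsProbabilityMeasure μ] (hμ : ∀ x : ℝ, μ {x} = 0)
    (hsym : μ.map (fun x => -x) = μ) : (PJ μ).map wJ = PB (lm μ) := by
  rw [← law_wf hμ hsym, ← map_tr μ]
  exact (Measure.map_map measurable_wf measurable_tr).symm

theorem ae_wJ {μ : Measure ℝ} [IsProbabilityMeasure μ] (hμ : ∀ x : ℝ, μ {x} = 0)
    (hsym : μ.map (fun x => -x) = μ) {p : WT → Prop} (h : ∀ᵐ b ∂(PB (lm μ)), p b) :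
    ∀ᵐ J ∂(PJ μ), p (wJ J) := by
  rw [← map_wJ hμ hsym] at h
  exact ae_of_ae_map measurable_wJ.aemeasurable h

theorem wJ_shJ (v : V) (J : E → ℝ) : wJ (shJ v J) = shB (vV v) (wJ J) := by
  unfold wJ
  rw [tr_shJ, wf_sh]

/-- the spins of a T-join -/
noncomputable def spi (J : E → ℝ) (U : Ed → Bool) : V → ℝ :=
  fun x => sn (pot (bx (ng (tr J)) U) (vV x))

/-- the bond variables of a T-join -/
noncomputable def bdU (J : E → ℝ) (U : Ed → Bool) : E → ℝ := fun e => sg (bx (ng (tr J)) U (cE e))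

/-- the edge set of a T-join and the negative couplings is even -/
def Ev (J : E → ℝ) (U : Ed → Bool) : Prop := ∀ v, par (bx (ng (tr J)) U) v = false

theorem Ev_of_GS {J : E → ℝ} {U : Ed → Bool} (h : U ∈ GS (wJ J).1 (wJ J).2) : Ev J U := by
  intro v
  rw [par_bx, h.1 v]
  show xor (fr (tr J) v) (fr (tr J) v) = false
  simp

theorem bond_spi {J : E → ℝ} {U : Ed → Bool} (h : Ev J U) : bond (spi J U) = bdU J U := by
  funext e
  have h2 := congrFun (cut_pot h) (cE e)
  unfold bond spi bdU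
  rw [sn_mul, ← pa_cE, ← pb_cE, ← h2]
  rfl

theorem measurable_spi : Measurable fun q : (E → ℝ) × (Ed → Bool) => spi q.1 q.2 := by
  refine measurable_pi_iff.2 fun x => ?_
  have h1 : Measurable sn := measurable_of_countable _
  have h2 : Measurable fun q : Bool × Bool => xor q.1 q.2 := measurable_of_countable _
  refine h1.comp ((measurable_pot _).comp (measurable_pi_iff.2 fun e => ?_))
  exact h2.comp (((measurable_pi_apply e).comp (measurable_ng.comp
    (measurable_tr.comp measurable_fst))).prodMk ((measurable_pi_apply e).comp measurable_snd))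

theorem measurable_bdU : Measurable fun q : (E → ℝ) × (Ed → Bool) => bdU q.1 q.2 := by
  refine measurable_pi_iff.2 fun x => ?_
  have h1 : Measurable sg := measurable_of_countable _
  have h2 : Measurable fun q : Bool × Bool => xor q.1 q.2 := measurable_of_countable _
  exact h1.comp (h2.comp (((measurable_pi_apply _).comp (measurable_ng.comp
    (measurable_tr.comp measurable_fst))).prodMk ((measurable_pi_apply _).comp measurable_snd)))

/-- a covariant kernel of T-joins -/
structure KP (μ : Measure ℝ) (k : Kernel WT (Ed → Bool)) : Prop where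
  mark : IsMarkovKernel k
  sh : ∀ u, ∀ᵐ b ∂(PB (lm μ)), k (shB u b) = (k b).map (sh u)
  gs : ∀ᵐ b ∂(PB (lm μ)), ∀ᵐ U ∂(k b), U ∈ GS b.1 b.2

/-- law of (couplings, T-join) -/
noncomputable def Pi0 (μ : Measure ℝ) [IsProbabilityMeasure μ] (k : Kernel WT (Ed → Bool)) :
    Measure ((E → ℝ) × (Ed → Bool)) :=
  (PJ μ) ⊗ₘ (k.comap wJ measurable_wJ)

/-- the configuration -/
noncomputable def cfg (q : ((E → ℝ) × (Ed → Bool)) × Bool) : (E → ℝ) × (V → ℝ) :=
  (q.1.1, fun x => sn q.2 * spi q.1.1 q.1.2 x)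

theorem measurable_cfg : Measurable cfg := by
  refine (measurable_fst.comp measurable_fst).prodMk (measurable_pi_iff.2 fun x => ?_)
  have h1 : Measurable sn := measurable_of_countable _
  exact (h1.comp measurable_snd).mul
    ((measurable_pi_apply x).comp (measurable_spi.comp measurable_fst))

/-- law of (couplings, ground state) -/
noncomputable def Q0 (μ : Measure ℝ) [IsProbabilityMeasure μ] (k : Kernel WT (Ed → Bool)) :
    Measure ((E → ℝ) × (V → ℝ)) := ((Pi0 μ k).prod coin).map cfg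

/-- translates of (couplings, T-join) -/
def shT1 (v : V) (q : (E → ℝ) × (Ed → Bool)) : (E → ℝ) × (Ed → Bool) :=
  (shJ v q.1, sh (vV v) q.2)

theorem measurable_shT1 (v : V) : Measurable (shT1 v) :=
  ((measurable_shJ v).comp measurable_fst).prodMk
    ((Pool.Agent.Helper60.TJ.measurable_sh (vV v)).comp measurable_snd)

variable {μ : Measure ℝ} [IsProbabilityMeasure μ] {k : Kernel WT (Ed → Bool)}

theorem ae_Pi0 (hμ : ∀ x : ℝ, μ {x} = 0) (hsym : μ.map (fun x => -x) = μ) (hk : KP μ k) :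
    ∀ᵐ q ∂(Pi0 μ k), q.2 ∈ GS (wJ q.1).1 (wJ q.1).2 := by
  have := hk.mark
  have hm : MeasurableSet {q : (E → ℝ) × (Ed → Bool) | q.2 ∈ GS (wJ q.1).1 (wJ q.1).2} :=
    measurableSet_GS.preimage ((measurable_wJ.comp measurable_fst).prodMk measurable_snd)
  unfold Pi0
  rw [Measure.ae_compProd_iff hm]
  exact ae_wJ hμ hsym hk.gs

theorem map_Pi0 (hμ : ∀ x : ℝ, μ {x} = 0) (hsym : μ.map (fun x => -x) = μ) (hk : KP μ k) (v : V) :
    (Pi0 μ k).map (shT1 v) = Pi0 μ k := by
  have := hk.mark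
  ext G hG
  rw [Measure.map_apply (measurable_shT1 v) hG]
  unfold Pi0
  rw [Measure.compProd_apply (measurable_shT1 v hG), Measure.compProd_apply hG]
  have hmp : MeasurePreserving (shJ v) (PJ μ) (PJ μ) := mp_shJ μ v
  rw [← hmp.lintegral_comp (Kernel.measurable_kernel_prodMk_left hG)]
  refine lintegral_congr_ae ?_
  filter_upwards [ae_wJ hμ hsym (hk.sh (vV v))] with J hJ
  rw [Kernel.comap_apply, Kernel.comap_apply, wJ_shJ, hJ, Measure.map_apply
    (Pool.Agent.Helper60.TJ.measurable_sh (vV v)) (measurable_prodMk_left hG)]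
  rfl

theorem fst_Pi0 (hk : KP μ k) : (Pi0 μ k).map Prod.fst = PJ μ := by
  have := hk.mark
  exact Measure.fst_compProd _ _

/-! ### the law is stationary -/

theorem pot_zero (X : Ed → Bool) : pot X 0 = false := rfl

theorem pot_sh {X : Ed → Bool} (h : ∀ v, par X v = false) (u w : Vx) :
    pot X (w + u) = xor (pot X u) (pot (sh u X) w) := by
  rcases shift_pot h u with h1 | h1
  · have h2 := congrFun h1 0
    rw [pot_zero, zero_add] at h2
    have h3 := congrFun h1 w
    rw [h3, ← h2]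
    simp
  · have h2 := congrFun h1 0
    rw [pot_zero, zero_add] at h2
    have h3 := congrFun h1 w
    rw [h3]
    revert h2
    cases pot X u <;> simp

theorem spi_add {J : E → ℝ} {U : Ed → Bool} (h : Ev J U) (v x : V) :
    spi J U (x + v) = sn (pot (bx (ng (tr J)) U) (vV v)) * spi (shJ v J) (sh (vV v) U) x := by
  unfold spi
  have e1 : vV (x + v) = vV x + vV v := rfl
  have e2 : bx (ng (tr (shJ v J))) (sh (vV v) U) = sh (vV v) (bx (ng (tr J)) U) := by
    rw [tr_shJ]
    rfl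
  rw [e1, e2, pot_sh h]
  generalize pot (bx (ng (tr J)) U) (vV v) = a
  generalize pot (sh (vV v) (bx (ng (tr J)) U)) (vV x) = b
  cases a <;> cases b <;> simp [sn]

theorem map_xor_coin (a : Bool) : coin.map (fun s => xor s a) = coin := by
  have hm : Measurable fun s : Bool => xor s a := measurable_of_countable _
  unfold Pool.Agent.Helper61.MM.coin
  rw [Measure.map_smul, Measure.map_add _ _ hm, Measure.map_dirac' hm, Measure.map_dirac' hm]
  cases a
  · simp
  · simp only [Bool.xor_true, Bool.not_true, Bool.not_false]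
    rw [add_comm]

theorem prob_Pi0 (hk : KP μ k) : IsProbabilityMeasure (Pi0 μ k) := by
  have := hk.mark
  unfold Pi0
  infer_instance

theorem fst_Q0 (hk : KP μ k) : (Q0 μ k).map Prod.fst = PJ μ := by
  have := hk.mark
  have := prob_Pi0 hk
  unfold Q0
  rw [Measure.map_map measurable_fst measurable_cfg]
  have h1 : (Prod.fst ∘ cfg) = Prod.fst ∘ (Prod.fst : ((E → ℝ) × (Ed → Bool)) × Bool → _) := rfl
  rw [h1, ← Measure.map_map measurable_fst measurable_fst, Measure.map_fst_prod, measure_univ,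
    one_smul, fst_Pi0 hk]

theorem inv_Q0 (hμ : ∀ x : ℝ, μ {x} = 0) (hsym : μ.map (fun x => -x) = μ) (hk : KP μ k) (v : V) :
    (Q0 μ k).map (fun p => (shJ v p.1, shS v p.2)) = Q0 μ k := by
  have := hk.mark
  have := prob_Pi0 hk
  have hsm : Measurable fun p : (E → ℝ) × (V → ℝ) => (shJ v p.1, shS v p.2) :=
    ((measurable_shJ v).comp measurable_fst).prodMk ((measurable_shS v).comp measurable_snd)
  have hpm : Measurable fun q : (E → ℝ) × (Ed → Bool) => pot (bx (ng (tr q.1)) q.2) (vV v) := by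
    refine (measurable_pot _).comp (measurable_pi_iff.2 fun e => ?_)
    have h2 : Measurable fun q : Bool × Bool => xor q.1 q.2 := measurable_of_countable _
    exact h2.comp (((measurable_pi_apply e).comp (measurable_ng.comp
      (measurable_tr.comp measurable_fst))).prodMk ((measurable_pi_apply e).comp measurable_snd))
  have h2 : Measurable fun q : Bool × Bool => xor q.1 q.2 := measurable_of_countable _
  have hmp : MeasurePreserving (fun q : ((E → ℝ) × (Ed → Bool)) × Bool =>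
      (shT1 v q.1, xor q.2 (pot (bx (ng (tr q.1.1)) q.1.2) (vV v))))
      ((Pi0 μ k).prod coin) ((Pi0 μ k).prod coin) := by
    refine MeasurePreserving.skew_product (f := shT1 v)
      (g := fun q s => xor s (pot (bx (ng (tr q.1)) q.2) (vV v)))
      ⟨measurable_shT1 v, map_Pi0 hμ hsym hk v⟩ ?_ ?_
    · exact h2.comp (measurable_snd.prodMk (hpm.comp measurable_fst))
    · exact Filter.Eventually.of_forall fun q => map_xor_coin _
  unfold Q0
  rw [Measure.map_map hsm measurable_cfg]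
  conv_rhs => rw [← hmp.map_eq, Measure.map_map measurable_cfg hmp.measurable]
  refine Measure.map_congr ?_
  have h3 : ∀ᵐ q ∂((Pi0 μ k).prod coin), q.1.2 ∈ GS (wJ q.1.1).1 (wJ q.1.1).2 := by
    have h4 := ae_Pi0 hμ hsym hk
    exact (Measure.quasiMeasurePreserving_fst (μ := Pi0 μ k) (ν := coin)).ae h4
  filter_upwards [h3] with q hq
  have hev := Ev_of_GS hq
  refine Prod.ext rfl ?_
  funext x
  show sn q.2 * spi q.1.1 q.1.2 (x + v) = sn (xor q.2 (pot (bx (ng (tr q.1.1)) q.1.2) (vV v))) *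
    spi (shJ v q.1.1) (sh (vV v) q.1.2) x
  rw [spi_add hev, ← mul_assoc]
  congr 1
  generalize pot (bx (ng (tr q.1.1)) q.1.2) (vV v) = a
  cases q.2 <;> cases a <;> simp [sn]

theorem ground_spi {J : E → ℝ} (hnt : NT (wt (tr J))) {U : Ed → Bool}
    (hU : U ∈ GS (wJ J).1 (wJ J).2) : IsGroundState J (spi J U) := by
  refine ground_of_GS (J' := tr J) (fun e => ?_) hnt hU
  show J e = J (cE.symm (cE e))
  rw [Equiv.symm_apply_apply]

/-- **the law is stationary** -/
theorem stat0 (hμ : ∀ x : ℝ, μ {x} = 0) (hsym : μ.map (fun x => -x) = μ) (hk : KP μ k) :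
    StationaryLaw μ (Q0 μ k) := by
  have := hk.mark
  have := prob_Pi0 hk
  refine ⟨fst_Q0 hk, inv_Q0 hμ hsym hk, ?_⟩
  have h2 : ∀ᵐ J ∂((Q0 μ k).map Prod.fst), ∀ σ : V → ℝ,
      WG (cpl id J) σ → IsGroundState (cpl id J) σ := by
    rw [fst_Q0 hk]
    exact generic (ν := μ) (q := id) hμ measurable_id
  have h3 : ∀ᵐ p ∂(Q0 μ k), WG p.1 p.2 := by
    unfold Q0
    rw [ae_map_iff measurable_cfg.aemeasurable (measurableSet_WG measurable_fst measurable_snd)]
    have h4 : ∀ᵐ q ∂((Pi0 μ k).prod coin), q.1.2 ∈ GS (wJ q.1.1).1 (wJ q.1.1).2 :=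
      (Measure.quasiMeasurePreserving_fst (μ := Pi0 μ k) (ν := coin)).ae (ae_Pi0 hμ hsym hk)
    have h5 : ∀ᵐ q ∂((Pi0 μ k).prod coin), NT (wt (tr q.1.1)) := by
      have h6 : ∀ᵐ J ∂((Pi0 μ k).map Prod.fst), NT (wt (tr J)) := by
        rw [fst_Pi0 hk]
        filter_upwards [ae_tr (ae_basic μ hμ)] with J hJ
        exact hJ.2
      exact (Measure.quasiMeasurePreserving_fst (μ := Pi0 μ k) (ν := coin)).ae
        (ae_of_ae_map measurable_fst.aemeasurable h6)
    filter_upwards [h4, h5] with q hq hq2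
    have h7 := (ground_spi hq2 hq).wg
    show WG q.1.1 fun x => sn q.2 * spi q.1.1 q.1.2 x
    cases q.2
    · have : (fun x => sn false * spi q.1.1 q.1.2 x) = spi q.1.1 q.1.2 := by
        funext x
        simp [sn]
      rw [this]
      exact h7
    · have : (fun x => sn true * spi q.1.1 q.1.2 x) = -spi q.1.1 q.1.2 := by
        funext x
        simp [sn]
      rw [this]
      exact h7.neg
  filter_upwards [ae_of_ae_map measurable_fst.aemeasurable h2, h3] with p h4 h5
  exact h4 _ h5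

/-- the law of (couplings, bond variables) -/
theorem bond0 (hμ : ∀ x : ℝ, μ {x} = 0) (hsym : μ.map (fun x => -x) = μ) (hk : KP μ k) :
    (Q0 μ k).map (fun p => (p.1, bond p.2)) = (Pi0 μ k).map (fun q => (q.1, bdU q.1 q.2)) := by
  have := hk.mark
  have := prob_Pi0 hk
  have hbm : Measurable fun p : (E → ℝ) × (V → ℝ) => (p.1, bond p.2) :=
    measurable_fst.prodMk (measurable_pi_iff.2 fun e => measurable_bond measurable_snd e)
  unfold Q0
  rw [Measure.map_map hbm measurable_cfg]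
  have h1 : (Pi0 μ k).map (fun q => (q.1, bdU q.1 q.2)) =
      ((Pi0 μ k).prod coin).map (fun q => (q.1.1, bdU q.1.1 q.1.2)) := by
    have h2 : (fun q : ((E → ℝ) × (Ed → Bool)) × Bool => (q.1.1, bdU q.1.1 q.1.2)) =
        (fun q : (E → ℝ) × (Ed → Bool) => (q.1, bdU q.1 q.2)) ∘ Prod.fst := rfl
    rw [h2, ← Measure.map_map (measurable_fst.prodMk measurable_bdU) measurable_fst,
      Measure.map_fst_prod, measure_univ, one_smul]
  rw [h1]
  refine Measure.map_congr ?_
  have h3 : ∀ᵐ q ∂((Pi0 μ k).prod coin), q.1.2 ∈ GS (wJ q.1.1).1 (wJ q.1.1).2 :=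
    (Measure.quasiMeasurePreserving_fst (μ := Pi0 μ k) (ν := coin)).ae (ae_Pi0 hμ hsym hk)
  filter_upwards [h3] with q hq
  refine Prod.ext rfl ?_
  have h4 := bond_spi (Ev_of_GS hq)
  show bond (fun x => sn q.2 * spi q.1.1 q.1.2 x) = bdU q.1.1 q.1.2
  rw [← h4]
  funext e
  unfold bond
  cases q.2 <;> simp [sn]

theorem abs_bdU (J : E → ℝ) (U : Ed → Bool) (e : E) : |bdU J U e| ≤ 1 := by
  unfold bdU
  cases bx (ng (tr J)) U (cE e) <;> simp [sg]

/-- conditional means of the bond variables -/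
theorem int_bond0 (hμ : ∀ x : ℝ, μ {x} = 0) (hsym : μ.map (fun x => -x) = μ) (hk : KP μ k)
    (e : E) {g : (E → ℝ) → ℝ} (hg : Measurable g) (hb : ∃ C : ℝ, ∀ J, |g J| ≤ C) :
    ∫ p, g p.1 * bond p.2 e ∂(Q0 μ k) = ∫ J, g J * ∫ U, bdU J U e ∂(k (wJ J)) ∂(PJ μ) := by
  have := hk.mark
  have := prob_Pi0 hk
  obtain ⟨C, hC⟩ := hb
  have hbm : Measurable fun p : (E → ℝ) × (V → ℝ) => (p.1, bond p.2) :=
    measurable_fst.prodMk (measurable_pi_iff.2 fun e => measurable_bond measurable_snd e)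
  have hgm : Measurable fun r : (E → ℝ) × (E → ℝ) => g r.1 * r.2 e :=
    (hg.comp measurable_fst).mul ((measurable_pi_apply e).comp measurable_snd)
  have hum : Measurable fun q : (E → ℝ) × (Ed → Bool) => (q.1, bdU q.1 q.2) :=
    measurable_fst.prodMk measurable_bdU
  have h1 : ∫ p, g p.1 * bond p.2 e ∂(Q0 μ k) =
      ∫ r, g r.1 * r.2 e ∂((Q0 μ k).map (fun p => (p.1, bond p.2))) := by
    rw [integral_map hbm.aemeasurable hgm.aestronglyMeasurable]
  have h2 : ∫ r, g r.1 * r.2 e ∂((Pi0 μ k).map (fun q => (q.1, bdU q.1 q.2))) =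
      ∫ q, g q.1 * bdU q.1 q.2 e ∂(Pi0 μ k) := by
    rw [integral_map hum.aemeasurable hgm.aestronglyMeasurable]
  rw [h1, bond0 hμ hsym hk, h2]
  unfold Pi0
  have hint : Integrable (fun q : (E → ℝ) × (Ed → Bool) => g q.1 * bdU q.1 q.2 e)
      ((PJ μ) ⊗ₘ (k.comap wJ measurable_wJ)) := by
    refine Integrable.of_bound (hgm.comp hum).aestronglyMeasurable C
      (Filter.Eventually.of_forall fun q => ?_)
    show ‖g q.1 * bdU q.1 q.2 e‖ ≤ C
    rw [Real.norm_eq_abs, abs_mul]
    calc |g q.1| * |bdU q.1 q.2 e| ≤ |g q.1| * 1 :=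
          mul_le_mul_of_nonneg_left (abs_bdU _ _ _) (abs_nonneg _)
      _ ≤ C := by rw [mul_one]; exact hC _
  rw [Measure.integral_compProd hint]
  refine integral_congr_ae (Filter.Eventually.of_forall fun J => ?_)
  show ∫ U, g J * bdU J U e ∂(k (wJ J)) = g J * ∫ U, bdU J U e ∂(k (wJ J))
  rw [integral_const_mul]

/-- the law of (couplings, bond variables) in terms of the kernel -/
theorem law_bond0 (hμ : ∀ x : ℝ, μ {x} = 0) (hsym : μ.map (fun x => -x) = μ) (hk : KP μ k)
    {G : Set ((E → ℝ) × (E → ℝ))} (hG : MeasurableSet G) :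
    (Q0 μ k).map (fun p => (p.1, bond p.2)) G =
      ∫⁻ J, k (wJ J) {U | (J, bdU J U) ∈ G} ∂(PJ μ) := by
  have := hk.mark
  have hum : Measurable fun q : (E → ℝ) × (Ed → Bool) => (q.1, bdU q.1 q.2) :=
    measurable_fst.prodMk measurable_bdU
  rw [bond0 hμ hsym hk, Measure.map_apply hum hG]
  unfold Pi0
  rw [Measure.compProd_apply (hum hG)]
  rfl

/-- all stationary laws have the same conditional means of the bond variables -/
theorem same_means (hμ : ∀ x : ℝ, μ {x} = 0) (hsym : μ.map (fun x => -x) = μ) (hk : KP μ k)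
    {Q : Measure ((E → ℝ) × (V → ℝ))} (hQ : StationaryLaw μ Q) (e : E) {g : (E → ℝ) → ℝ}
    (hg : Measurable g) (hb : ∃ C : ℝ, ∀ J, |g J| ≤ C) :
    ∫ p, g p.1 * bond p.2 e ∂Q = ∫ J, g J * ∫ U, bdU J U e ∂(k (wJ J)) ∂(PJ μ) := by
  rw [← int_bond0 hμ hsym hk e hg hb]
  obtain ⟨C, hC⟩ := hb
  have h1 : StatLaw μ id Q := hQ
  have h2 : StatLaw μ id (Q0 μ k) := stat0 hμ hsym hk
  exact stat_unique (ν := μ) (q := id) hμ measurable_id h1 h2 e hg hC

/-- the conditional law of the T-join in the extended metastate is such a kernel -/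
theorem KP_of {κ : Kernel WT Pool.Agent.Helper61.MM.Rs} [IsMarkovKernel κ]
    (hsh : ∀ u, ∀ᵐ b ∂(PB (lm μ)), Pool.Agent.Helper61.MM.kU κ (shB u b) =
      (Pool.Agent.Helper61.MM.kU κ b).map (sh u))
    (hgs : ∀ᵐ b ∂(PB (lm μ)), (∀ e, 0 < b.1 e) ∧ NT b.1 ∧
      ∀ᵐ U ∂(Pool.Agent.Helper61.MM.kU κ b), U ∈ GS b.1 b.2) :
    KP μ (Pool.Agent.Helper61.MM.kU κ) := by
  refine ⟨?_, hsh, ?_⟩
  · exact Kernel.IsMarkovKernel.map κ (measurable_fst.comp (measurable_pi_apply ∅))
  · filter_upwards [hgs] with b hb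
    exact hb.2.2

end Pool.Agent.Helper98.M1
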